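import Pool.Agent.V1138.KR.Real
import Pool.Agent.Y152.RP.Fam

/-!
# MP_e573c6_ag: one-parameter families of curves in products of modular curves: no atypical points on
all but finitely many members whose parameters are values of a rational function at radicals

The Shimura variety `Y(1)^n` is identified with `ℂ^n` by the elliptic modular function
`jj = j = E₄³ / Δ`. The Shimura varieties are the products of `n` modular curves of any levels, and
their images in `Y(1)^n`; `n` is arbitrary.

**Families.** Let `K ⊂ ℂ` be a countable field. We consider algebraic families `X_t` of curves in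
`Y(1)^n` with one parameter `t`, given by
* a family `B_t ⊆ P^N` of projective algebraic curves, defined by forms `G k` with coefficients in
  `K[t]`,
* quotients `f_i = A_i / B_i` of forms of the same degree `d_i` with coefficients in `K[t]`,
* functions `s_i` integral over `K[j]`, `R_i (s_i, j) = 0` with `R_i` monic in the first variable
  (level one: `R_i = S - J`, `s_i = j`; in general modular functions of any level without poles
  in the upper half plane), and polynomials `c_i ∈ K[t]`:
`X_t = {x | ∃ y ∈ B_t, ∃ s, ∀ i, R_i (s_i, x_i) = 0, c_i (t) s_i = A_i (y) / B_i (y)}`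
(`scaledImage`), the image of a family of curves in a product of modular curves.

**Parameters.** Let `Γ₀` be a finitely generated subgroup of `ℚ^×`. We call `ξ` a pure radical over
`Γ₀` if `ξ ^ N = γ` for some `N > 0` and some rational number `γ` which has a power in `Γ₀`, and `ξ`
has degree `N` over `ℚ` (`IsPureRadical`). For example all real numbers with a power in `Γ₀`, and
their conjugates, are pure radicals (theorem `Pool.Agent.V1138.KR.pure_of_real`). Let `f = P / Q` be
a rational function, where `P` and `Q` are coprime polynomials with integral coefficients. The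
parameters are the values `t = f (ξ)` of `f` at the pure radicals `ξ` over `Γ₀` (`IsRadicalValue`),
for example the numbers `2^(1/N) + 2^(-1/N)`, or `1 + 6^(k/N)`. These parameters are algebraic
numbers of unbounded degree and unbounded height. A rational number `α` is called independent if
`f (x) = α` for at least one `x ≠ 0` with no power in `Γ₀` (for `f = X`: no power of `α ≠ 0` is in
`Γ₀`).

The family degenerates at the independent rational values `t = α_1, …, α_M` of the parameter in
the following sense:
* no point of `B_{α_l}` lies on two of the divisors of the `f_i` (at `t = α_l`) (this is the condition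
  `InGeneralPosition` for `m = 1`; it implies that `B_{α_l}` is at most a curve if `n ≥ 2` and the
  `f_i` are not constant on its components), and
* the `c_i` have zeros at `α_l`, of orders `e_{l i} > 0`, and these orders are independent:
  `q e_{l i} e_{l j} e_{l' i} e_{l' j}` is not a square for `l ≠ l'`, `i ≠ j`, `1 ≤ q ≤ T^8`, where
  `T` bounds the degrees of the `R_i` (`T = 1` for level one).

**Theorem.** If `M ≥ 4` then for all but finitely many `t = f (ξ)` the set `X_t` has no
point at all on special subvarieties of codimension at least two, `atyp(X_t) = ∅`. The constant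
coordinates of the special subvarieties can be special points or integral over the ring generated by
any given finite subset `Γ` of `K`.

The degree of `t` is unbounded, and `n` is arbitrary. This is the part on curves of our file
`MP_130685_nt.RadicalValues` (which treats subvarieties of all dimensions, with
`n (n - 1) / 2 + 1` instead of `4`). No large Galois orbits hypothesis is used. The local criterion is
that of the starting file `CurveFamilies`, which treats parameters of bounded degree, the numbers `t`
with a rational power, and roots of unity.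

**The arithmetic** (`Pool.Agent.V1138.KR`). If `α = u / v` is independent then for all but finitely
many parameters `t = f (ξ)` the (homogenized) value at `α` of the minimal polynomial of `t` has a
prime factor larger than a given number `D`. Otherwise the resultant of `u Q - v P` and the minimal
polynomial of `ξ`, `ξ ^ N = γ`, has only small prime factors, hence `β ^ N - γ` is an `S`-unit for
every zero `β` of `u Q - v P`, with a fixed finite set `S`. By the unit equation `β ^ N / γ` is one of
finitely many numbers, and if no power of `β` is in `Γ₀` this number determines `N` and `γ`.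
-/

set_option autoImplicit false

namespace Pool.Agent.Results.MP_e573c6_ag.RadicalValues

open MvPolynomial
open Pool.Agent.Y152.RP.Fam (SpecialVariety InGeneralPosition scaledImage IndependentExponents)

/-- `ξ ^ N = γ` for some `N > 0` and `γ ∈ ℚ^×` with a power in `Γ₀`, and `ξ` has degree `N`. -/
def IsPureRadical (Γ₀ : Subgroup ℚˣ) (ξ : ℂ) : Prop :=
  ∃ N : ℕ, 0 < N ∧ ∃ γ : ℚˣ, (∃ m : ℕ, 0 < m ∧ γ ^ m ∈ Γ₀) ∧ ξ ^ N = ((γ : ℚ) : ℂ) ∧
    N ≤ (minpoly ℚ ξ).natDegree

/-- `t` is the value of `P / Q` at a pure radical over `Γ₀`. -/
def IsRadicalValue (Γ₀ : Subgroup ℚˣ) (P Q : Polynomial ℤ) (t : ℂ) : Prop :=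
  ∃ ξ : ℂ, IsPureRadical Γ₀ ξ ∧ Polynomial.aeval ξ Q ≠ 0 ∧
    t = Polynomial.aeval ξ P / Polynomial.aeval ξ Q

/-- `P` and `Q` have no common factor over the rational numbers. -/
def NoCommonFactor (P Q : Polynomial ℤ) : Prop :=
  IsCoprime (P.map (Int.castRingHom ℚ)) (Q.map (Int.castRingHom ℚ))

/-- `P / Q` takes the value `α` at a nonzero number which has no power in `Γ₀`. -/
def Independent (Γ₀ : Subgroup ℚˣ) (P Q : Polynomial ℤ) (α : ℚ) : Prop :=
  ∃ x : ℂ, x ≠ 0 ∧ Polynomial.aeval x P = (α : ℂ) * Polynomial.aeval x Q ∧
    ∀ m : ℕ, 0 < m → ∀ γ ∈ Γ₀, x ^ m ≠ ((γ : ℚ) : ℂ)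

/-- The points of `X` on special subvarieties of codimension at least two (with constant coordinates
which are special points or integral over `Γ`). -/
def atyp (Γ : Finset ℂ) {n : ℕ} (X : Set (Fin n → ℂ)) : Set (Fin n → ℂ) :=
  {x | x ∈ X ∧ ∃ (r : ℕ) (Z : SpecialVariety (algebraMap (Algebra.adjoin ℤ (Γ : Set ℂ)) ℂ) n r),
    r + 2 ≤ n ∧ x ∈ Z.locus}

/-- One-parameter families of curves which degenerate at four independent rational parameters: all but
finitely many of the members with parameters `P (ξ) / Q (ξ)` have no atypical points. -/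
theorem result (K : Subfield ℂ) [Countable K] (κ : Type) [Finite κ] (N n M T : ℕ)
    (G : κ → MvPolynomial (Fin (N + 1)) (Polynomial K)) (hG : ∀ k, ∃ e, (G k).IsHomogeneous e)
    (A B : Fin n → MvPolynomial (Fin (N + 1)) (Polynomial K)) (δ : Fin n → ℕ)
    (hA : ∀ i, (A i).IsHomogeneous (δ i)) (hB : ∀ i, (B i).IsHomogeneous (δ i))
    (R : Fin n → Polynomial (Polynomial K)) (hR : ∀ i, (R i).Monic)
    (hT : ∀ i u w, ((R i).coeff u).coeff w ≠ 0 → u ≤ T ∧ w ≤ T)
    (c : Fin n → Polynomial K) (α : Fin M → ℚ)
    (hind : IndependentExponents T fun l i => (c i).rootMultiplicity ((α l : ℚ) : K))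
    (hpos : ∀ l, InGeneralPosition ((α l : ℚ) : ℂ) 1 G A B) (Γ : Finset ℂ)
    (hΓ : ∀ γ ∈ Γ, γ ∈ K) (hM : 4 ≤ M)
    (Γ₀ : Subgroup ℚˣ) (hΓ₀ : Γ₀.FG)
    (P Q : Polynomial ℤ) (hPQ : NoCommonFactor P Q) (hα : ∀ l, Independent Γ₀ P Q (α l)) :
    {t : ℂ | IsRadicalValue Γ₀ P Q t ∧ atyp Γ (scaledImage t G A B R c) ≠ ∅}.Finite := by
  have h := (Pool.Agent.Y152.RP.Fam.family K κ N n 1 M T G hG A B δ hA hB R hR hT c α hind
    hpos Γ hΓ {t | IsRadicalValue Γ₀ P Q t}
    (fun t ht => Pool.Agent.V1138.KR.alg_of_value Γ₀ P Q t ht)).2 rfl hM fun D =>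
      Pool.Agent.V1138.KR.finite_badK D hM α Γ₀ hΓ₀ P Q hPQ hα
  refine h.subset ?_
  rintro t ⟨ht, hne⟩
  obtain ⟨x, hx, r, Z, hr, hxZ⟩ := Set.nonempty_iff_ne_empty.2 hne
  exact ⟨ht, r, Z, hr, x, hx, hxZ⟩

end Pool.Agent.Results.MP_e573c6_ag.RadicalValues
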