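import Pool.Agent.V1138.SP.Many
import Pool.Agent.Y152.RP.Fam

/-!
# MP_e573c6_ag: one-parameter families of curves in products of modular curves: no atypical points on
all but finitely many members with parameters of sparse minimal polynomial

The Shimura variety `Y(1)^n` is identified with `ℂ^n` by the elliptic modular function
`jj = j = E₄³ / Δ`. The Shimura varieties are the products of `n` modular curves of any levels, and
their images in `Y(1)^n`; `n` is arbitrary.

**Families.** Let `K ⊂ ℂ` be a countable field. We consider algebraic families `X_t` of curves in
`Y(1)^n` with one parameter `t`, given by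
* a family `B_t ⊆ P^N` of projective algebraic curves, defined by forms `G k` with coefficients in
  `K[t]`,
* quotients `f_i = A_i / B_i` of forms of the same degree `d_i` with coefficients in `K[t]`,
* functions `s_i` integral over `K[j]`, `R_i (s_i, j) = 0` with `R_i` monic in the first variable
  (level one: `R_i = S - J`, `s_i = j`; in general modular functions of any level without poles
  in the upper half plane), and polynomials `c_i ∈ K[t]`:
`X_t = {x | ∃ y ∈ B_t, ∃ s, ∀ i, R_i (s_i, x_i) = 0, c_i (t) s_i = A_i (y) / B_i (y)}`
(`scaledImage`), the image of a family of curves in a product of modular curves.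

The family degenerates at the distinct rational values `t = α_1, …, α_M ≠ 0` of the parameter in the
following sense:
* no point of `B_{α_l}` lies on two of the divisors of the `f_i` (at `t = α_l`) (this is the condition
  `InGeneralPosition` for `m = 1`; it implies that `B_{α_l}` is at most a curve if `n ≥ 2` and the
  `f_i` are not constant on its components), and
* the `c_i` have zeros at `α_l`, of orders `e_{l i} > 0`, and these orders are independent:
  `q e_{l i} e_{l j} e_{l' i} e_{l' j}` is not a square for `l ≠ l'`, `i ≠ j`, `1 ≤ q ≤ T^8`, where
  `T` bounds the degrees of the `R_i` (`T = 1` for level one).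

**Theorem.** If `M ≥ 4 + 6 s (s + 1)` then for all but finitely many algebraic numbers `t` whose
minimal polynomial (the irreducible polynomial with integral coefficients with the root `t`) has at
most `s + 1` terms the set `X_t` has no point at all on special subvarieties of codimension at least
two, `atyp(X_t) = ∅`. The constant coordinates of the special subvarieties can be special points or
integral over the ring generated by any given finite subset `Γ` of `K`.

The degree of `t` and the coefficients of the minimal polynomial are arbitrary; for `s = 2` the
parameters are all the roots of irreducible trinomials and binomials. The number of the degenerate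
members does not depend on `n`. This is the part on curves of our file
`MP_d83ecd_ag.SparseParameters` (which treats subvarieties of all dimensions, with
`n (n - 1) / 2 + 1` instead of `4`). No large Galois orbits hypothesis is used. The starting file
`CurveFamilies` proves the conclusion for the `t` of degree at most `d` (which have minimal
polynomials with at most `d + 1` terms) and for the numbers `t` with a rational power.

**The arithmetic** (`Pool.Agent.V1138.SP`). Let `α_1, …, α_C` be distinct positive rational numbers,
`C = 3 s (s + 1) + 1`, and `D` a number. For all but finitely many `t ≠ 0` whose minimal polynomial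
has `s + 1` terms its (homogenized) value at one of the `α_l` has a prime factor larger than `D`:
`t` is not `S`-integral relative to `α_1, …, α_C`. Here both the exponents and
the coefficients of the minimal polynomial vary. The proof works in a field of germs of sequences of
rational numbers, which is graded by the rates of growth of the exponents of `S`-units (subspace
theorem, `Pool.Agent.TH551.SU`); it uses Cramer's rule and the rule of signs of Descartes.
-/

set_option autoImplicit false

namespace Pool.Agent.Results.MP_e573c6_ag.SparseParameters

open MvPolynomial
open Pool.Agent.Y152.RP.Fam (SpecialVariety InGeneralPosition scaledImage IndependentExponents)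

/-- The minimal polynomial of `t` over the integers has at most `s + 1` terms. -/
def SparseMinimalPolynomial (s : ℕ) (t : ℂ) : Prop :=
  ∃ F : Polynomial ℤ, Irreducible F ∧ F.support.card ≤ s + 1 ∧ Polynomial.aeval t F = 0

/-- The points of `X` on special subvarieties of codimension at least two (with constant coordinates
which are special points or integral over `Γ`). -/
def atyp (Γ : Finset ℂ) {n : ℕ} (X : Set (Fin n → ℂ)) : Set (Fin n → ℂ) :=
  {x | x ∈ X ∧ ∃ (r : ℕ) (Z : SpecialVariety (algebraMap (Algebra.adjoin ℤ (Γ : Set ℂ)) ℂ) n r),
    r + 2 ≤ n ∧ x ∈ Z.locus}

/-- One-parameter families of curves which degenerate at sufficiently many rational parameters: all but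
finitely many of the members with parameters with sparse minimal polynomial have no atypical
points. -/
theorem result (K : Subfield ℂ) [Countable K] (κ : Type) [Finite κ] (N n M T : ℕ)
    (G : κ → MvPolynomial (Fin (N + 1)) (Polynomial K)) (hG : ∀ k, ∃ e, (G k).IsHomogeneous e)
    (A B : Fin n → MvPolynomial (Fin (N + 1)) (Polynomial K)) (δ : Fin n → ℕ)
    (hA : ∀ i, (A i).IsHomogeneous (δ i)) (hB : ∀ i, (B i).IsHomogeneous (δ i))
    (R : Fin n → Polynomial (Polynomial K)) (hR : ∀ i, (R i).Monic)
    (hT : ∀ i u w, ((R i).coeff u).coeff w ≠ 0 → u ≤ T ∧ w ≤ T)
    (c : Fin n → Polynomial K) (α : Fin M → ℚ) (hinj : Function.Injective α) (hα : ∀ l, α l ≠ 0)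
    (hind : IndependentExponents T fun l i => (c i).rootMultiplicity ((α l : ℚ) : K))
    (hpos : ∀ l, InGeneralPosition ((α l : ℚ) : ℂ) 1 G A B) (Γ : Finset ℂ)
    (hΓ : ∀ γ ∈ Γ, γ ∈ K) (s : ℕ) (hM : 4 + 6 * s * (s + 1) ≤ M) :
    {t : ℂ | SparseMinimalPolynomial s t ∧ atyp Γ (scaledImage t G A B R c) ≠ ∅}.Finite := by
  have halg : ∀ t ∈ {t : ℂ | SparseMinimalPolynomial s t}, IsAlgebraic ℤ t := by
    rintro t ⟨F, hF, -, hFt⟩
    exact ⟨F, hF.ne_zero, hFt⟩
  have h := (Pool.Agent.Y152.RP.Fam.family K κ N n 1 M T G hG A B δ hA hB R hR hT c α hind
    hpos Γ hΓ _ halg).2 rfl (by omega) fun D =>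
      Pool.Agent.V1138.SP.finite_badS D s hM α hinj hα
  refine h.subset ?_
  rintro t ⟨ht, hne⟩
  obtain ⟨x, hx, r, Z, hr, hxZ⟩ := Set.nonempty_iff_ne_empty.2 hne
  exact ⟨ht, r, Z, hr, x, hx, hxZ⟩

end Pool.Agent.Results.MP_e573c6_ag.SparseParameters
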