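import Pool.Agent.V11322.ZF.Box

/-!
# MP_e573c6_ag: curves in products of modular curves which meet no special subvariety of codimension
at least two: three places are sufficient

The Shimura variety `Y(1)^n` is identified with `ℂ^n` by the elliptic modular function
`jj = j = E₄³ / Δ`. A product `𝒳 = Y_1 × … × Y_n` of modular curves of any levels is finite over it,
and a special subvariety of `𝒳` of codimension at least two lies over one of `Y(1)^n`.

**Setting.** Let `Λ ⊆ ℂ` be a ring, and let `s_i` be functions integral over `Λ[j]`,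
`R_i (s_i, j) = 0` with `R_i` monic in the first variable, for instance modular functions of any
level without poles in the upper half plane (level one: `R_i = S - J`, `s_i = j`). Let `C ⊂ 𝒳` be a
curve, and `c_i ∈ Λ`. Any two of the functions `u_i = c_i s_i` satisfy an equation on `C`, and we
suppose that for all pairs `J = {i, i'}` such an equation `G_J (u_i, u_i') = 0` is given, with
coefficients in `Λ`. Let `d_J` be bounds for its degrees. The four *corner coefficients* are the
coefficients of `1`, `u_i^d`, `u_i'^d'` and `u_i^d u_i'^d'`. They are not zero if and only if the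
curve in `P^1 × P^1` given by the equation (made homogeneous with the degrees `d`, `d'`) does not
contain a point with both coordinates equal to `0` or `∞`. We regard the set `curve` of all points
of `Y(1)^n` over which there are numbers `s_i` satisfying these equations; it contains the image of
`C`.

**1. Criterion.** Suppose that there are three good places: homomorphisms `red` from `Λ` to fields
(reductions modulo prime ideals) such that the corner coefficients and the non-zero
coefficients of the `R_i` do not reduce to `0`, and `c_i` has the exact order `e_{l i} > 0` at the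
`l`-th place, where the `e_{l i}` are independent on polygons: if `U` is a nonempty set of places
and `i_l ≠ j_l` are coordinates for the places `l ∈ U` such that every coordinate occurs an even
number of times among the `i_l` and the `j_l` (so they form a double segment or a triangle), then
`∏_{l ∈ U} t_l e_{l i_l} e_{l j_l}` is not a square for `1 ≤ t_l ≤ T^4` (`T` is a bound for the
degrees of the `R_i`, `T = 1` for level one). Then `C` does not meet any special subvariety of
codimension at least two: `atyp (C) = ∅`. The constant coordinates of the special subvarieties can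
be special points or arbitrary numbers integral over `Λ`.

**2. One-parameter families.** Let the equations `G_J` and the `c_i` have coefficients in `K₀[t]` for
a field `K₀ ⊂ ℂ`, the `R_i` coefficients in `K₀`. If at three numbers `t = α_l ∈ K₀` the corner
coefficients are not zero and `c_i` has a zero of the order `e_{l i}`, `e` as above, then
`atyp (C_τ) = ∅` for all transcendental `t = τ` (all `τ ∈ ℂ` not algebraic over `K₀`, for countable
`K₀` all but countably many `τ`).

**3. Almost all scalings.** Let the `G_J` and `R_i` be arbitrary polynomials over a subfield `K` of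
`ℂ` (for instance `ℂ`), with non-zero corner coefficients. Then there is `D` such that
`atyp (C_c) = ∅` for all vectors `c` of positive integers for which there are three primes larger
than `D` whose exponents in the `c_i` are positive and independent on polygons; this holds for almost
all members of the families `c_i = k^(a 0 i) (k + 1)^(a 1 i) (k + 2)^(a 2 i)`, with exponents `a` as
above: the number of exceptions `k ≤ H` is at most a power of `log H`. Here the constant coordinates
can be special points or integral over the ring generated by a given finite set `Γ ⊂ K`.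

In the starting file `FourPlaces` four places (zeros, primes) are needed.
-/

namespace Pool.Agent.Results.MP_e573c6_ag.ThreePlaces

open H294ZP UpperHalfPlane MvPolynomial Pool.Agent.W282.ZP

/-- A special subvariety of `Y(1)^n = ℂ^n` of dimension `r` (with more constants allowed): a map
`cls` from the coordinates onto `r` classes (`none` for constant coordinates), an integral matrix
of positive determinant for every coordinate, and a constant for every coordinate, which is a
special point or integral over `Λ`. -/
structure SpecialVariety {Λ : Type} [CommRing Λ] (f : Λ →+* ℂ) (n r : ℕ) where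
  cls : Fin n → Option (Fin r)
  surj : ∀ l : Fin r, ∃ i, cls i = some l
  mat : Fin n → Matrix (Fin 2) (Fin 2) ℤ
  det_pos : ∀ i, 0 < (mat i).det
  const : Fin n → ℂ
  allowed : ∀ i, (∃ τ : ℍ, IsCM τ ∧ const i = jj τ) ∨ f.IsIntegralElem (const i)

/-- The points of the special subvariety: the constant coordinates are the given constants, and the
coordinates of class `l` are `j (g_i z_l)`, with a free parameter `z_l` in the upper half plane. -/
def SpecialVariety.locus {Λ : Type} [CommRing Λ] {f : Λ →+* ℂ} {n r : ℕ}
    (Z : SpecialVariety f n r) : Set (Fin n → ℂ) :=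
  {x | ∃ z : Fin r → ℍ, ∀ i, (Z.cls i = none → x i = Z.const i) ∧
    ∀ l, Z.cls i = some l → ∃ w : ℍ,
      (w : ℂ) * (Z.mat i 1 0 * z l + Z.mat i 1 1) = Z.mat i 0 0 * z l + Z.mat i 0 1 ∧
      x i = jj w}

/-- `C` meets no special subvariety of codimension at least two. -/
def AtypEmpty {Λ : Type} [CommRing Λ] (f : Λ →+* ℂ) {n : ℕ} (C : Set (Fin n → ℂ)) : Prop :=
  ∀ r : ℕ, r + 2 ≤ n → ∀ Z : SpecialVariety f n r, C ∩ Z.locus = ∅

/-- The value at `(s, x)` of a polynomial `R = ∑ r_u (J) S^u` in two variables `S` and `J`. -/
noncomputable def valueAt {Λ : Type} [CommRing Λ] (f : Λ →+* ℂ) (R : Polynomial (Polynomial Λ))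
    (s x : ℂ) : ℂ :=
  Polynomial.eval₂ (Polynomial.eval₂RingHom f x) s R

/-- The points of `Y(1)^n` over which there are values `s_i` of the functions on the factors, which
satisfy the equations `G_J (c_i s_i, c_i' s_i') = 0` for all pairs `J = {i, i'}`. -/
def curve {Λ : Type} [CommRing Λ] (f : Λ →+* ℂ) {n : ℕ} (R : Fin n → Polynomial (Polynomial Λ))
    (G : ∀ J : Finset (Fin n), MvPolynomial J Λ) (c : Fin n → Λ) : Set (Fin n → ℂ) :=
  {x | ∃ s : Fin n → ℂ, (∀ i, valueAt f (R i) (s i) (x i) = 0) ∧
    ∀ J : Finset (Fin n), J.card = 2 → eval₂ f (fun j : J => f (c j) * s j) (G J) = 0}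

/-- The exponents of a corner monomial `∏_{j ∈ I} u_j^(d_j)`. -/
noncomputable def corner {σ : Type} [Fintype σ] [DecidableEq σ] (d : σ → ℕ) (I : Finset σ) :
    σ →₀ ℕ :=
  Finsupp.equivFunOnFinite.symm fun j => if j ∈ I then d j else 0

/-- The numbers `d J` bound the degrees of the equations `G J` of the pairs `J`. -/
def DegreeBounds {Λ : Type} [CommRing Λ] {n : ℕ} (G : ∀ J : Finset (Fin n), MvPolynomial J Λ)
    (d : ∀ J : Finset (Fin n), J → ℕ) : Prop :=
  ∀ J : Finset (Fin n), J.card = 2 → ∀ u ∈ (G J).support, ∀ j, u j ≤ d J j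

/-- The corner coefficients do not vanish under `red`. -/
def CornersNe {Λ F : Type} [CommRing Λ] [Field F] (red : Λ →+* F) {n : ℕ}
    (G : ∀ J : Finset (Fin n), MvPolynomial J Λ) (d : ∀ J : Finset (Fin n), J → ℕ) : Prop :=
  ∀ J : Finset (Fin n), J.card = 2 → ∀ I : Finset J, red ((G J).coeff (corner (d J) I)) ≠ 0

/-- The exponents are positive and independent on polygons: if `U` is a nonempty set of places and
`i l ≠ j l` are coordinates for the places `l` in `U`, such that every coordinate `v` occurs an even
number of times among them, then the product of the `t l * e l (i l) * e l (j l)` over `U` is not a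
square, for all `1 ≤ t l ≤ T ^ 4`. -/
def IndependentExponents {n L : ℕ} (T : ℕ) (e : Fin L → Fin n → ℕ) : Prop :=
  (∀ l i, 0 < e l i) ∧
  ∀ U : Finset (Fin L), U.Nonempty → ∀ (i j : Fin L → Fin n) (t : Fin L → ℕ),
    (∀ l ∈ U, i l ≠ j l ∧ 0 < t l ∧ t l ≤ T ^ 4) →
    (∀ v, Even ((U.filter fun l => i l = v).card + (U.filter fun l => j l = v).card)) →
    ¬ IsSquare (∏ l ∈ U, t l * (e l (i l) * e l (j l)))

/-- A good place: a homomorphism `red` to a field under which the corner coefficients and the
non-zero coefficients of the `R i` do not vanish, such that `c i` has the exact order `e i` at the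
place, `a (c i) = b ϖ ^ (e i)` with `red ϖ = 0` and `a`, `b` invertible at the place. -/
structure GoodPlace {Λ : Type} [CommRing Λ] {n : ℕ} (R : Fin n → Polynomial (Polynomial Λ))
    (G : ∀ J : Finset (Fin n), MvPolynomial J Λ) (d : ∀ J : Finset (Fin n), J → ℕ)
    (c : Fin n → Λ) (e : Fin n → ℕ) where
  F : Type
  [field : Field F]
  red : Λ →+* F
  corners : CornersNe red G d
  coeff_ne : ∀ i u w, ((R i).coeff u).coeff w ≠ 0 → red (((R i).coeff u).coeff w) ≠ 0
  ϖ : Λ
  red_ϖ : red ϖ = 0
  order : ∀ i, ∃ a b : Λ, red a ≠ 0 ∧ red b ≠ 0 ∧ a * c i = b * ϖ ^ e i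

/-- The exponents of three primes `p l > D` in the `c i` are positive and independent on
polygons. -/
def Spread {n : ℕ} (T D : ℕ) (c : Fin n → ℕ) : Prop :=
  ∃ p : Fin 3 → ℕ, (∀ l, (p l).Prime ∧ D < p l) ∧
    IndependentExponents T fun l i => (c i).factorization (p l)

/-- relations between the coordinates of a point of a special subvariety -/
theorem rel_of_locus {Λ : Type} [CommRing Λ] {f : Λ →+* ℂ} {n r : ℕ} (Z : SpecialVariety f n r)
    {x : Fin n → ℂ} {z : Fin r → ℍ} (hz : ∀ i, (Z.cls i = none → x i = Z.const i) ∧
      ∀ l, Z.cls i = some l → ∃ w : ℍ,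
      (w : ℂ) * (Z.mat i 1 0 * z l + Z.mat i 1 1) = Z.mat i 0 0 * z l + Z.mat i 0 1 ∧
      x i = jj w) (i j : Fin n) (l : Fin r) (hi : Z.cls i = some l) (hj : Z.cls j = some l) :
    IsIntegral (Algebra.adjoin ℤ {x i}) (x j) ∧
    Polynomial.eval₂ (Polynomial.aeval (x i) : Polynomial ℂ →ₐ[ℂ] ℂ).toRingHom (x j)
      (Psi ((Z.mat i).det.toNat * (Z.mat j).det.toNat)) = 0 := by
  obtain ⟨w, hw, hxw⟩ := (hz i).2 l hi
  obtain ⟨w', hw', hxw'⟩ := (hz j).2 l hj
  refine ⟨?_, ?_⟩
  · obtain ⟨a, b, c, d, e1, e2⟩ := isogeny_rel (Z.det_pos i) hw hw'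
    rw [hxw, hxw']
    exact isogenous_integral w w' a b c d (by
      rw [e1]
      exact mul_pos (Z.det_pos i) (Z.det_pos j)) e2
  · rw [← Int.toNat_mul (Z.det_pos i).le (Z.det_pos j).le, ← eval_relPoly]
    exact eval_relPoly_eq_zero (Z.det_pos i) (Z.det_pos j) hw hw' hxw hxw'

theorem main {Λ : Type} [CommRing Λ] (f : Λ →+* ℂ) (hf : Function.Injective f) {n T : ℕ}
    (R : Fin n → Polynomial (Polynomial Λ)) (hR : ∀ i, (R i).Monic)
    (hT : ∀ i u w, ((R i).coeff u).coeff w ≠ 0 → u ≤ T ∧ w ≤ T)
    (G : ∀ J : Finset (Fin n), MvPolynomial J Λ) (d : ∀ J : Finset (Fin n), J → ℕ)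
    (hd : DegreeBounds G d) (c : Fin n → Λ) (e : Fin 3 → Fin n → ℕ)
    (he : IndependentExponents T e) (P : ∀ l, GoodPlace R G d c (e l)) :
    AtypEmpty f (curve f R G c) := by
  classical
  have hdom : IsDomain Λ := hf.isDomain f
  let _ : Algebra Λ ℂ := f.toAlgebra
  let inst : ∀ l, Field (P l).F := fun l => (P l).field
  intro r hr Z
  rw [Set.eq_empty_iff_forall_notMem]
  rintro x ⟨⟨s, hs, hG⟩, z, hz⟩
  have hN : ∀ i, 0 < (Z.mat i).det.toNat := by
    intro i
    have := Z.det_pos i
    omega
  have hfi : Function.Injective (algebraMap Λ ℂ) := hf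
  have key := V11322.ZF.criterionBoxF (m := 1) R hR hT c (fun l => RingHom.ker (P l).red)
    (fun l => RingHom.ker_isPrime (P l).red) G d hd (fun l J hJ I => (P l).corners J hJ I)
    (fun l i u w h0 => (P l).coeff_ne i u w h0) (fun l => (P l).ϖ) (fun l => (P l).red_ϖ) e he.1
    (fun l i => (P l).order i) he.2 Z.cls (fun i => (Z.mat i).det.toNat) x s hN ?_
    (fun i j l hi hj => rel_of_locus Z hz i j l hi hj) hs hG ∅
    (algebraicIndependent_empty_type_iff.2 hfi)
  · rw [Finset.card_empty] at key
    omega
  intro i hi
  rw [(hz i).1 hi]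
  rcases Z.allowed i with ⟨τ, hτ, hc⟩ | h
  · rw [hc]
    exact (singular_modulus_integral τ hτ).tower_top
  · exact h

/-- the value of a polynomial at a complex number -/
noncomputable def evalAt (K₀ : Subfield ℂ) (z : ℂ) : Polynomial K₀ →+* ℂ :=
  (Polynomial.aeval z : Polynomial K₀ →ₐ[K₀] ℂ).toRingHom

/-- The first three parts are the criterion at three places, the transcendental members of
one-parameter families, and almost all scalings of a curve; the last part gives examples of
independent exponents. -/
theorem result :
    (∀ (Λ : Type) [CommRing Λ] (f : Λ →+* ℂ), Function.Injective f → ∀ (n T : ℕ)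
      (R : Fin n → Polynomial (Polynomial Λ)), (∀ i, (R i).Monic) →
      (∀ i u w, ((R i).coeff u).coeff w ≠ 0 → u ≤ T ∧ w ≤ T) →
      ∀ (G : ∀ J : Finset (Fin n), MvPolynomial J Λ) (d : ∀ J : Finset (Fin n), J → ℕ),
      DegreeBounds G d → ∀ (c : Fin n → Λ) (e : Fin 3 → Fin n → ℕ), IndependentExponents T e →
      (∀ l, Nonempty (GoodPlace R G d c (e l))) → AtypEmpty f (curve f R G c)) ∧
    (∀ (K₀ : Subfield ℂ) (n T : ℕ) (R : Fin n → Polynomial (Polynomial K₀)), (∀ i, (R i).Monic) →
      (∀ i u w, ((R i).coeff u).coeff w ≠ 0 → u ≤ T ∧ w ≤ T) →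
      ∀ (G : ∀ J : Finset (Fin n), MvPolynomial J (Polynomial K₀))
      (d : ∀ J : Finset (Fin n), J → ℕ), DegreeBounds G d →
      ∀ (c : Fin n → Polynomial K₀) (α : Fin 3 → K₀),
      IndependentExponents T (fun l i => (c i).rootMultiplicity (α l)) →
      (∀ l, CornersNe (evalAt K₀ (α l)) G d) →
      ∀ τ : ℂ, Transcendental K₀ τ → AtypEmpty (evalAt K₀ τ) (curve (evalAt K₀ τ)
        (fun i => (R i).map (Polynomial.mapRingHom Polynomial.C)) G c)) ∧
    (∀ (K : Subfield ℂ) (n T : ℕ) (R : Fin n → Polynomial (Polynomial K)),
      (∀ i, (R i).Monic) → (∀ i u w, ((R i).coeff u).coeff w ≠ 0 → u ≤ T ∧ w ≤ T) →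
      ∀ (G : ∀ J : Finset (Fin n), MvPolynomial J K) (d : ∀ J : Finset (Fin n), J → ℕ),
      DegreeBounds G d → CornersNe (RingHom.id K) G d → ∀ Γ : Finset ℂ, (∀ γ ∈ Γ, γ ∈ K) →
      ∃ D : ℕ,
      (∀ c : Fin n → ℕ, Spread T D c →
        AtypEmpty (algebraMap (Algebra.adjoin ℤ (Γ : Set ℂ)) ℂ)
          (curve K.subtype R G fun i => (c i : K))) ∧
      ∀ a : Fin 3 → Fin n → ℕ, IndependentExponents T a → ∀ H : ℕ,
        Set.ncard {k : ℕ | 1 ≤ k ∧ k ≤ H ∧
          ¬ AtypEmpty (algebraMap (Algebra.adjoin ℤ (Γ : Set ℂ)) ℂ)
            (curve K.subtype R G fun i => ((∏ l : Fin 3, (k + (l : ℕ)) ^ a l i : ℕ) : K))} ≤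
          3 * (Nat.log 2 (H + 3) + 1) ^ (D + 4)) ∧
    ∀ (n L T : ℕ) (e : Fin L → Fin n → ℕ), (∀ l i, (e l i).Prime ∧ T ^ 4 < e l i) →
      (∀ l i l' i', e l i = e l' i' → l = l' ∧ i = i') → IndependentExponents T e := by
  classical
  refine ⟨?_, ?_, ?_, ?_⟩
  · intro Λ _ f hf n T R hR hT G d hd c e he P
    exact main f hf R hR hT G d hd c e he fun l => (P l).some
  · intro K₀ n T R hR hT G d hd c α he hcor τ hτ
    have hf : Function.Injective (evalAt K₀ τ) := transcendental_iff_injective.1 hτ
    refine main (evalAt K₀ τ) hf _ (fun i => (hR i).map _) ?_ G d hd c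
      (fun l i => (c i).rootMultiplicity (α l)) he fun l => ?_
    · intro i u w h0
      rw [Polynomial.coeff_map, Polynomial.coe_mapRingHom, Polynomial.coeff_map] at h0
      exact hT i u w fun h1 => h0 (by rw [h1, map_zero])
    · have hev : ∀ a : K₀, evalAt K₀ (α l) (Polynomial.C a) = (a : ℂ) := by
        intro a
        show Polynomial.aeval _ (Polynomial.C a) = _
        rw [Polynomial.aeval_C]
        rfl
      have hev2 : ∀ p : Polynomial K₀, evalAt K₀ (α l) p = ((p.eval (α l) : K₀) : ℂ) := by
        intro p
        show Polynomial.aeval (algebraMap K₀ ℂ (α l)) p = _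
        rw [Polynomial.aeval_algebraMap_apply]
        rfl
      exact
        { F := ℂ
          red := evalAt K₀ (α l)
          corners := hcor l
          coeff_ne := by
            intro i u w h0
            rw [Polynomial.coeff_map, Polynomial.coe_mapRingHom, Polynomial.coeff_map] at h0 ⊢
            rw [hev]
            intro h1
            apply h0
            rw [show ((R i).coeff u).coeff w = 0 from Subtype.ext h1, map_zero]
          ϖ := Polynomial.X - Polynomial.C (α l)
          red_ϖ := by
            rw [hev2, Polynomial.eval_sub, Polynomial.eval_X, Polynomial.eval_C, sub_self]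
            rfl
          order := by
            intro i
            have hc0 : c i ≠ 0 := by
              intro h0
              have := he.1 l i
              change 0 < (c i).rootMultiplicity (α l) at this
              rw [h0, Polynomial.rootMultiplicity_zero] at this
              exact lt_irrefl _ this
            obtain ⟨q, hq1, hq2⟩ :=
              Polynomial.exists_eq_pow_rootMultiplicity_mul_and_not_dvd (c i) hc0 (α l)
            refine ⟨1, q, ?_, ?_, ?_⟩
            · rw [map_one]
              exact one_ne_zero
            · rw [hev2]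
              intro h1
              apply hq2
              rw [Polynomial.dvd_iff_isRoot, Polynomial.IsRoot.def]
              exact Subtype.ext h1
            · rw [one_mul]
              conv_lhs => rw [hq1]
              ring }
  · intro K n T R hR hT G d hd hcor Γ hΓ
    obtain ⟨D, hD⟩ := V11322.ZF.boxF K (m := 1) R hR hT G d hd hcor Γ hΓ
    have hspr : ∀ c : Fin n → ℕ, Spread T D c ↔ V11322.ZF.SpreadF 3 T D c := fun c => Iff.rfl
    have h1 : ∀ c : Fin n → ℕ, Spread T D c →
        AtypEmpty (algebraMap (Algebra.adjoin ℤ (Γ : Set ℂ)) ℂ)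
          (curve K.subtype R G fun i => (c i : K)) := by
      intro c hc r hr Z
      rw [Set.eq_empty_iff_forall_notMem]
      rintro x ⟨⟨s, hs, hG⟩, z, hz⟩
      have hN : ∀ i, 0 < (Z.mat i).det.toNat := by
        intro i
        have := Z.det_pos i
        omega
      have key := hD c ((hspr c).1 hc) r Z.cls (fun i => (Z.mat i).det.toNat) x s hN ?_
        (fun i j l hi hj => rel_of_locus Z hz i j l hi hj) hs ?_ ∅
        (algebraicIndependent_empty_type_iff.2 (algebraMap K ℂ).injective)
      · rw [Finset.card_empty] at key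
        omega
      · intro i hi
        rw [(hz i).1 hi]
        rcases Z.allowed i with ⟨τ, hτ, hc⟩ | h
        · rw [hc]
          exact (singular_modulus_integral τ hτ).tower_top
        · exact h
      · intro J hJ
        have h2 := hG J hJ
        simp only [map_natCast] at h2
        exact h2
    refine ⟨D, h1, ?_⟩
    intro a ha H
    refine (Set.ncard_le_ncard ?_ ?_).trans
      (V11322.ZF.countF (L := 3) (T := T) D a ha.1 ha.2 H)
    · rintro k ⟨hk1, hk2, hk3⟩
      exact ⟨hk1, hk2, fun hs => hk3 (h1 _ ((hspr _).2 hs))⟩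
    · exact (Set.finite_Icc 1 H).subset fun k hk => ⟨hk.1, hk.2.1⟩
  · intro n L T e he hinj
    exact ⟨fun l i => (he l i).1.pos, V11322.ZF.cyc_of_primes e he hinj⟩

end Pool.Agent.Results.MP_e573c6_ag.ThreePlaces
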